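import Pool.Agent.H96.RT.Fin

/-!
# Elliptic curves of rank at least 2, ordered by naive height

The two quotients are `δ₀(H)` and `δ₁(H)` of the problem, written as in the frozen statement `S17071`.
-/

set_option autoImplicit false

namespace Pool.Agent.Results.MP_5b1d62_nt.RankTwoRate

open Pool.Agent.H96.RT

/-- There is `c > 0` such that `δ₀(H) + δ₁(H) ≤ 1 - c H^(-1/6)` for all large `H`. -/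
theorem result : ∃ c H₀ : ℝ, 0 < c ∧ ∀ H : ℝ, H₀ ≤ H →
    ((({p : ℤ × ℤ | 4 * p.1 ^ 3 + 27 * p.2 ^ 2 ≠ 0 ∧
          (∀ q : ℕ, q.Prime → ¬ ((q : ℤ) ^ 4 ∣ p.1 ∧ (q : ℤ) ^ 6 ∣ p.2)) ∧
          4 * |(p.1 : ℝ)| ^ 3 ≤ H ∧ 27 * (p.2 : ℝ) ^ 2 ≤ H ∧
          Module.rank ℤ (WeierstrassCurve.mk 0 0 0 (p.1 : ℚ) (p.2 : ℚ)).toAffine.Point = 0}.ncard : ℝ) /
        ({p : ℤ × ℤ | 4 * p.1 ^ 3 + 27 * p.2 ^ 2 ≠ 0 ∧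
          (∀ q : ℕ, q.Prime → ¬ ((q : ℤ) ^ 4 ∣ p.1 ∧ (q : ℤ) ^ 6 ∣ p.2)) ∧
          4 * |(p.1 : ℝ)| ^ 3 ≤ H ∧ 27 * (p.2 : ℝ) ^ 2 ≤ H}.ncard : ℝ))) +
      ((({p : ℤ × ℤ | 4 * p.1 ^ 3 + 27 * p.2 ^ 2 ≠ 0 ∧
          (∀ q : ℕ, q.Prime → ¬ ((q : ℤ) ^ 4 ∣ p.1 ∧ (q : ℤ) ^ 6 ∣ p.2)) ∧
          4 * |(p.1 : ℝ)| ^ 3 ≤ H ∧ 27 * (p.2 : ℝ) ^ 2 ≤ H ∧
          Module.rank ℤ (WeierstrassCurve.mk 0 0 0 (p.1 : ℚ) (p.2 : ℚ)).toAffine.Point = 1}.ncard : ℝ) /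
        ({p : ℤ × ℤ | 4 * p.1 ^ 3 + 27 * p.2 ^ 2 ≠ 0 ∧
          (∀ q : ℕ, q.Prime → ¬ ((q : ℤ) ^ 4 ∣ p.1 ∧ (q : ℤ) ^ 6 ∣ p.2)) ∧
          4 * |(p.1 : ℝ)| ^ 3 ≤ H ∧ 27 * (p.2 : ℝ) ^ 2 ≤ H}.ncard : ℝ))) ≤
      1 - c * H ^ (-(1 / 6) : ℝ) := by
  obtain ⟨c, H₀, hc, -, h⟩ := rate
  refine ⟨c, H₀, hc, fun H hH => ?_⟩
  have := h H hH
  simpa only [EH, Set.mem_ofPred_eq, and_assoc] using this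

end Pool.Agent.Results.MP_5b1d62_nt.RankTwoRate
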